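import Mathlib

/-!
# Magnitude is not continuous on tractable subsets of `L₁`

Let `T ⊆ L₁[0,1]` consist of `0` and the indicator functions of the intervals `[i/N, (i+1)/N)`. Every
finite subset of `T` has magnitude at most `exp (1/2)`, because the similarity matrix is a mixture of
rank one matrices of characters of independent signs and one of them, of weight at least
`exp (-1/2)`, is constant. The sets `{0} ∪ {indicators of the N intervals of length 1/N}` converge to
`{0}` in the Hausdorff metric, and their magnitudes are at least `5/4`.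
-/

set_option autoImplicit false

namespace Pool.Agent.Results.MP_17ecd9_gt.Discontinuity

open Set MeasureTheory Filter Topology

universe u

/-! ### Definitions -/

/-- The similarity matrix of a finite set. -/
noncomputable def zMat {M : Type*} [MetricSpace M] (A : Finset M) : Matrix A A ℝ :=
  Matrix.of fun a b => Real.exp (-dist a.1 b.1)

/-- All similarity matrices are positive definite. -/
def PosDefSpace (M : Type*) [MetricSpace M] : Prop :=
  ∀ A : Finset M, A.Nonempty → (zMat A).PosDef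

open Classical in
/-- The magnitude of a finite set: the sum of the entries of the inverse similarity matrix. -/
noncomputable def mag {M : Type*} [MetricSpace M] (A : Finset M) : ℝ :=
  ∑ a, ∑ b, (zMat A)⁻¹ a b

/-- The magnitude of a compact set: the supremum of the magnitudes of its finite subsets. -/
noncomputable def magC {M : Type*} [MetricSpace M] (K : Set M) : ENNReal :=
  ⨆ (A : Finset M) (_ : A.Nonempty) (_ : (A : Set M) ⊆ K), ENNReal.ofReal (mag A)

/-- Tractable metric spaces. -/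
def Tractable (M : Type*) [MetricSpace M] : Prop :=
  PosDefSpace M ∧ (∀ S : Set M, IsClosed S → Bornology.IsBounded S → IsCompact S) ∧
    ∀ (x : M) (r : ℝ), magC (Metric.closedBall x r) < ⊤

/-- Magnitude is continuous at the finite set `A`, among finite sets, for the Hausdorff metric. -/
def FinContinuousAt {M : Type*} [MetricSpace M] (A : Finset M) : Prop :=
  ∀ ε : ℝ, 0 < ε → ∃ δ : ℝ, 0 < δ ∧ ∀ B : Finset M, B.Nonempty →
    Metric.hausdorffDist (A : Set M) (B : Set M) < δ → |mag B - mag A| < ε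

/-- Magnitude is continuous at the compact set `K`, among compact sets, for the Hausdorff metric. -/
def CmpContinuousAt {M : Type*} [MetricSpace M] (K : Set M) : Prop :=
  ∀ ε : ℝ, 0 < ε → ∃ δ : ℝ, 0 < δ ∧ ∀ L : Set M, L.Nonempty → IsCompact L →
    Metric.hausdorffDist K L < δ → |(magC L).toReal - (magC K).toReal| < ε

/-- The space `L₁([0,1], ℝ)`. -/
abbrev L1 : Type := Lp ℝ 1 (volume.restrict (Icc (0 : ℝ) 1))

/-! ### Characters -/

section char

variable {Ω ι : Type*} [Fintype Ω] [DecidableEq Ω] [Fintype ι]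

/-- weight of a sign pattern -/
noncomputable def wt (ρ : Ω → ℝ) (ξ : Ω → Bool) : ℝ :=
  ∏ c, (if ξ c then (1 - ρ c) / 2 else (1 + ρ c) / 2)

/-- character -/
noncomputable def chr (s : Ω → Bool) (ξ : Ω → Bool) : ℝ :=
  ∏ c, (if (s c && ξ c) then (-1 : ℝ) else 1)

theorem sum_wt_chr (ρ : Ω → ℝ) (s t : Ω → Bool) :
    ∑ ξ, wt ρ ξ * (chr s ξ * chr t ξ) = ∏ c, (if s c = t c then 1 else ρ c) := by
  have h : ∀ ξ : Ω → Bool, wt ρ ξ * (chr s ξ * chr t ξ) =
      ∏ c, ((if ξ c then (1 - ρ c) / 2 else (1 + ρ c) / 2) *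
        ((if (s c && ξ c) then (-1 : ℝ) else 1) * (if (t c && ξ c) then (-1 : ℝ) else 1))) := by
    intro ξ
    rw [wt, chr, chr, Finset.prod_mul_distrib, Finset.prod_mul_distrib]
  simp only [h]
  have h2 := Finset.prod_univ_sum (R := ℝ) (κ := fun _ : Ω => Bool) (fun _ => Finset.univ)
    (fun c b => ((if b then (1 - ρ c) / 2 else (1 + ρ c) / 2) *
        ((if (s c && b) then (-1 : ℝ) else 1) * (if (t c && b) then (-1 : ℝ) else 1))))
  rw [Fintype.piFinset_univ] at h2
  rw [← h2]
  refine Finset.prod_congr rfl fun c _ => ?_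
  rw [Fintype.sum_bool]
  cases s c <;> cases t c <;> simp <;> ring

theorem quad_eq (s : ι → Ω → Bool) (ρ : Ω → ℝ) (v : ι → ℝ) :
    ∑ i, ∑ j, v i * v j * ∏ c, (if s i c = s j c then 1 else ρ c) =
      ∑ ξ, wt ρ ξ * (∑ i, v i * chr (s i) ξ) ^ 2 := by
  have h : ∀ ξ : Ω → Bool, wt ρ ξ * (∑ i, v i * chr (s i) ξ) ^ 2 =
      ∑ i, ∑ j, v i * v j * (wt ρ ξ * (chr (s i) ξ * chr (s j) ξ)) := by
    intro ξ
    rw [sq, Finset.sum_mul_sum, Finset.mul_sum]
    refine Finset.sum_congr rfl fun i _ => ?_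
    rw [Finset.mul_sum]
    refine Finset.sum_congr rfl fun j _ => ?_
    ring
  simp only [h]
  symm
  rw [Finset.sum_comm]
  refine Finset.sum_congr rfl fun i _ => ?_
  rw [Finset.sum_comm]
  refine Finset.sum_congr rfl fun j _ => ?_
  rw [← Finset.mul_sum, sum_wt_chr]

theorem wt_pos {ρ : Ω → ℝ} (h0 : ∀ c, 0 < ρ c) (h1 : ∀ c, ρ c < 1) (ξ : Ω → Bool) : 0 < wt ρ ξ := by
  refine Finset.prod_pos fun c _ => ?_
  have := h0 c
  have := h1 c
  split_ifs <;> linarith

theorem le_quad (s : ι → Ω → Bool) {ρ : Ω → ℝ} (h0 : ∀ c, 0 < ρ c) (h1 : ∀ c, ρ c < 1)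
    (v : ι → ℝ) :
    (∏ c, (1 + ρ c) / 2) * (∑ i, v i) ^ 2 ≤
      ∑ i, ∑ j, v i * v j * ∏ c, (if s i c = s j c then 1 else ρ c) := by
  rw [quad_eq]
  have hnn : ∀ ξ ∈ (Finset.univ : Finset (Ω → Bool)), 0 ≤ wt ρ ξ * (∑ i, v i * chr (s i) ξ) ^ 2 :=
    fun ξ _ => mul_nonneg (wt_pos h0 h1 ξ).le (sq_nonneg _)
  have h : wt ρ (fun _ => false) * (∑ i, v i * chr (s i) fun _ => false) ^ 2 ≤
      ∑ ξ, wt ρ ξ * (∑ i, v i * chr (s i) ξ) ^ 2 :=
    Finset.single_le_sum hnn (Finset.mem_univ _)
  refine le_trans (le_of_eq ?_) h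
  simp [wt, chr]

theorem quad_pos (s : ι → Ω → Bool) (hs : Function.Injective s) {ρ : Ω → ℝ} (h0 : ∀ c, 0 < ρ c)
    (h1 : ∀ c, ρ c < 1) {v : ι → ℝ} (hv : v ≠ 0) :
    0 < ∑ i, ∑ j, v i * v j * ∏ c, (if s i c = s j c then 1 else ρ c) := by
  rw [quad_eq]
  have hnn : ∀ ξ ∈ (Finset.univ : Finset (Ω → Bool)), 0 ≤ wt ρ ξ * (∑ i, v i * chr (s i) ξ) ^ 2 :=
    fun ξ _ => mul_nonneg (wt_pos h0 h1 ξ).le (sq_nonneg _)
  refine lt_of_le_of_ne (Finset.sum_nonneg hnn) fun h => hv ?_
  have hz := (Finset.sum_eq_zero_iff_of_nonneg hnn).1 h.symm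
  have hz' : ∀ ξ : Ω → Bool, ∑ i, v i * chr (s i) ξ = 0 := by
    intro ξ
    have := hz ξ (Finset.mem_univ _)
    rcases mul_eq_zero.1 this with h | h
    · exact absurd h (wt_pos h0 h1 ξ).ne'
    · exact pow_eq_zero_iff (two_ne_zero) |>.1 h
  funext i₀
  have h2 : ∑ ξ : Ω → Bool, wt (fun _ => 0) ξ * (chr (s i₀) ξ * ∑ i, v i * chr (s i) ξ) = 0 := by
    simp [hz']
  have h3 : ∑ ξ : Ω → Bool, wt (fun _ => 0) ξ * (chr (s i₀) ξ * ∑ i, v i * chr (s i) ξ) = v i₀ := by
    have : ∀ ξ : Ω → Bool, wt (fun _ => 0) ξ * (chr (s i₀) ξ * ∑ i, v i * chr (s i) ξ) =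
        ∑ i, v i * (wt (fun _ => 0) ξ * (chr (s i₀) ξ * chr (s i) ξ)) := by
      intro ξ
      rw [Finset.mul_sum, Finset.mul_sum]
      refine Finset.sum_congr rfl fun i _ => ?_
      ring
    simp only [this]
    rw [Finset.sum_comm]
    simp only [← Finset.mul_sum, sum_wt_chr]
    rw [Finset.sum_eq_single i₀]
    · simp
    · intro i _ hi
      have hne : s i₀ ≠ s i := fun h => hi (hs h).symm
      obtain ⟨c, hc⟩ := Function.ne_iff.1 hne
      rw [Finset.prod_eq_zero (Finset.mem_univ c) (by rw [if_neg hc]), mul_zero]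
    · intro h
      exact absurd (Finset.mem_univ _) h
  rw [← h3, h2]
  rfl

end char

/-! ### Sets -/

section sets

variable {α : Type*} {ι : Type u} [MeasurableSpace α] [Fintype ι]

theorem exists_pattern (μ : Measure α) [IsFiniteMeasure μ] (S : ι → Set α)
    (hS : ∀ i, MeasurableSet (S i)) : ∃ (Ω : Type u) (_ : Fintype Ω) (_ : DecidableEq Ω)
      (s : ι → Ω → Bool) (m : Ω → ℝ), (∀ c, 0 < m c) ∧ (∑ c, m c = μ.real univ) ∧
      ∀ i j, μ.real (symmDiff (S i) (S j)) = ∑ c, (if s i c = s j c then 0 else m c) := by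
  classical
  let φ : α → (ι → Bool) := fun x i => decide (x ∈ S i)
  have hφ : ∀ ε : ι → Bool, MeasurableSet (φ ⁻¹' {ε}) := by
    intro ε
    have : φ ⁻¹' {ε} = ⋂ i, (if ε i then S i else (S i)ᶜ) := by
      ext x
      simp only [φ, mem_preimage, mem_singleton_iff, mem_iInter, funext_iff]
      refine forall_congr' fun i => ?_
      cases ε i <;> simp
    rw [this]
    refine MeasurableSet.iInter fun i => ?_
    split_ifs
    · exact hS i
    · exact (hS i).compl
  let m₀ : (ι → Bool) → ℝ := fun ε => μ.real (φ ⁻¹' {ε})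
  have hsub : ∀ (g : (ι → Bool) → Prop) [DecidablePred g],
      ∑ c : {ε : ι → Bool // 0 < m₀ ε}, (if g c.1 then 0 else m₀ c.1) =
      ∑ ε, (if g ε then 0 else m₀ ε) := by
    intro g _
    have h1 : ∑ ε ∈ Finset.univ.filter (fun ε : ι → Bool => 0 < m₀ ε), (if g ε then 0 else m₀ ε) =
        ∑ c : {ε : ι → Bool // 0 < m₀ ε}, (if g c.1 then 0 else m₀ c.1) :=
      Finset.sum_subtype _ (by simp) _
    rw [← h1]
    refine Finset.sum_filter_of_ne fun ε _ hne => ?_
    refine lt_of_le_of_ne measureReal_nonneg fun h => hne ?_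
    have h' : m₀ ε = 0 := h.symm
    rw [h', ite_self]
  refine ⟨{ε : ι → Bool // 0 < m₀ ε}, inferInstance, inferInstance, fun i ε => ε.1 i, fun ε => m₀ ε.1,
    fun c => c.2, ?_, ?_⟩
  · have := hsub fun _ => False
    simp only [if_false] at this
    rw [this, sum_measureReal_preimage_singleton Finset.univ fun y _ => hφ y]
    simp
  · intro i j
    have h0 := hsub fun ε => ε i = ε j
    simp only
    rw [h0]
    have h1 : ∑ ε : ι → Bool, (if ε i = ε j then 0 else m₀ ε) =
        ∑ ε ∈ Finset.univ.filter (fun ε : ι → Bool => ε i ≠ ε j), m₀ ε := by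
      rw [Finset.sum_filter]
      refine Finset.sum_congr rfl fun ε _ => ?_
      by_cases h : ε i = ε j <;> simp [h]
    rw [h1, sum_measureReal_preimage_singleton _ fun y _ => hφ y]
    congr 1
    ext x
    simp only [φ, mem_symmDiff, mem_preimage, Finset.coe_filter, Finset.mem_univ, true_and, mem_ofPred_eq]
    by_cases h1 : x ∈ S i <;> by_cases h2 : x ∈ S j <;> simp [h1, h2]

theorem exp_eq_prod {Ω : Type*} [Fintype Ω] (m : Ω → ℝ) (s t : Ω → Bool) :
    Real.exp (-∑ c, (if s c = t c then 0 else m c)) =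
      ∏ c, (if s c = t c then 1 else Real.exp (-m c)) := by
  rw [← Finset.sum_neg_distrib, Real.exp_sum]
  refine Finset.prod_congr rfl fun c _ => ?_
  split_ifs <;> simp

theorem sets_le (μ : Measure α) [IsFiniteMeasure μ] (S : ι → Set α)
    (hS : ∀ i, MeasurableSet (S i)) (v : ι → ℝ) :
    Real.exp (-(μ.real univ / 2)) * (∑ i, v i) ^ 2 ≤
      ∑ i, ∑ j, v i * v j * Real.exp (-μ.real (symmDiff (S i) (S j))) := by
  obtain ⟨Ω, _, _, s, m, hm, htot, hd⟩ := exists_pattern μ S hS
  simp only [hd, exp_eq_prod]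
  refine le_trans ?_ (le_quad s (fun c => Real.exp_pos _)
    (fun c => by rw [Real.exp_lt_one_iff]; linarith [hm c]) v)
  refine mul_le_mul_of_nonneg_right ?_ (sq_nonneg _)
  rw [← htot, Finset.sum_div, ← Finset.sum_neg_distrib, Real.exp_sum]
  refine Finset.prod_le_prod (fun c _ => (Real.exp_pos _).le) fun c _ => ?_
  have h1 : Real.exp (-m c) = Real.exp (-(m c / 2)) ^ 2 := by
    rw [← Real.exp_nat_mul]; congr 1; push_cast; ring
  rw [h1]
  nlinarith [sq_nonneg (Real.exp (-(m c / 2)) - 1)]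

theorem sets_pos (μ : Measure α) [IsFiniteMeasure μ] (S : ι → Set α)
    (hS : ∀ i, MeasurableSet (S i)) (hne : ∀ i j, i ≠ j → μ.real (symmDiff (S i) (S j)) ≠ 0)
    {v : ι → ℝ} (hv : v ≠ 0) :
    0 < ∑ i, ∑ j, v i * v j * Real.exp (-μ.real (symmDiff (S i) (S j))) := by
  obtain ⟨Ω, _, _, s, m, hm, htot, hd⟩ := exists_pattern μ S hS
  simp only [hd, exp_eq_prod]
  refine quad_pos s ?_ (fun c => Real.exp_pos _)
    (fun c => by rw [Real.exp_lt_one_iff]; linarith [hm c]) hv
  intro i j hij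
  by_contra h
  apply hne i j h
  rw [hd]
  exact Finset.sum_eq_zero fun c _ => by rw [if_pos (congrFun hij c)]

end sets

/-! ### Magnitude -/

section mag

variable {M : Type*} [MetricSpace M]

theorem mag_eq {A : Finset M} (hA : (zMat A).PosDef) {w : A → ℝ}
    (hw : ∀ a : A, ∑ b : A, Real.exp (-dist a.1 b.1) * w b = 1) : mag A = ∑ a, w a := by
  classical
  have hu : IsUnit (zMat A) := hA.isUnit
  have h1 : (zMat A).mulVec w = fun _ => 1 := by
    funext a
    exact hw a
  have h2 : w = (zMat A)⁻¹.mulVec (fun _ => 1) := by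
    rw [← h1, Matrix.mulVec_mulVec, Matrix.nonsing_inv_mul _ ((Matrix.isUnit_iff_isUnit_det _).1 hu),
      Matrix.one_mulVec]
  unfold mag
  conv_rhs => rw [h2]
  simp only [Matrix.mulVec, dotProduct, mul_one]

theorem exists_weight {A : Finset M} (hA : (zMat A).PosDef) :
    ∃ w : A → ℝ, (∀ a : A, ∑ b : A, Real.exp (-dist a.1 b.1) * w b = 1) ∧ mag A = ∑ a, w a := by
  classical
  have hu : IsUnit (zMat A) := hA.isUnit
  have h : ∀ a : A, ∑ b : A, Real.exp (-dist a.1 b.1) * ((zMat A)⁻¹.mulVec (fun _ => 1)) b = 1 := by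
    intro a
    have h1 : (zMat A).mulVec ((zMat A)⁻¹.mulVec (fun _ => (1 : ℝ))) = fun _ => 1 := by
      rw [Matrix.mulVec_mulVec, Matrix.mul_nonsing_inv _ ((Matrix.isUnit_iff_isUnit_det _).1 hu),
        Matrix.one_mulVec]
    exact congrFun h1 a
  exact ⟨_, h, mag_eq hA h⟩

theorem mag_le {A : Finset M} (hA : (zMat A).PosDef) {c : ℝ} (hc : 0 < c)
    (h : ∀ v : A → ℝ, c * (∑ a, v a) ^ 2 ≤ ∑ a, ∑ b, v a * v b * Real.exp (-dist a.1 b.1)) :
    mag A ≤ 1 / c := by
  obtain ⟨w, hw, hmag⟩ := exists_weight hA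
  have h1 := h w
  have h2 : ∑ a, ∑ b, w a * w b * Real.exp (-dist a.1 b.1) = mag A := by
    rw [hmag]
    refine Finset.sum_congr rfl fun a _ => ?_
    have : ∑ b, w a * w b * Real.exp (-dist a.1 b.1) =
        w a * ∑ b, Real.exp (-dist a.1 b.1) * w b := by
      rw [Finset.mul_sum]
      refine Finset.sum_congr rfl fun b _ => by ring
    rw [this, hw, mul_one]
  rw [h2, ← hmag] at h1
  rw [le_div_iff₀ hc]
  rcases le_or_gt (mag A) 0 with h3 | h3
  · nlinarith
  · have : c * mag A * mag A ≤ 1 * mag A := by nlinarith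
    nlinarith [le_of_mul_le_mul_right this h3]

theorem posDef_of {A : Finset M}
    (h : ∀ v : A → ℝ, v ≠ 0 → 0 < ∑ a, ∑ b, v a * v b * Real.exp (-dist a.1 b.1)) :
    (zMat A).PosDef := by
  refine Matrix.PosDef.of_dotProduct_mulVec_pos ?_ fun v hv => ?_
  · ext a b
    simp [zMat, Matrix.conjTranspose_apply, dist_comm]
  · have h1 := h v hv
    have : star v ⬝ᵥ (zMat A).mulVec v = ∑ a, ∑ b, v a * v b * Real.exp (-dist a.1 b.1) := by
      simp only [dotProduct, Matrix.mulVec, zMat, Matrix.of_apply, Pi.star_apply, star_trivial]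
      refine Finset.sum_congr rfl fun a _ => ?_
      rw [Finset.mul_sum]
      refine Finset.sum_congr rfl fun b _ => by ring
    rw [this]
    exact h1

/-- The magnitude of a star. -/
theorem mag_star {A : Finset M} (hA : (zMat A).PosDef) {o : M} {n : ℕ} {f : Fin n → M} {δ : ℝ}
    (hA' : ∀ x, x ∈ A ↔ x = o ∨ ∃ i, x = f i) (ho : ∀ i, dist o (f i) = δ)
    (hf : ∀ i j, i ≠ j → dist (f i) (f j) = 2 * δ) (hδ : 0 < δ) :
    mag A = 1 + n * ((1 - Real.exp (-δ)) / (1 + Real.exp (-δ))) := by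
  classical
  set q : ℝ := Real.exp (-δ) with hq
  have hq0 : 0 < q := Real.exp_pos _
  have hne : ∀ i, f i ≠ o := by
    intro i h
    have := ho i
    rw [h, dist_self] at this
    linarith
  have hinj : Function.Injective f := by
    intro i j hij
    by_contra h
    have := hf i j h
    rw [hij, dist_self] at this
    linarith
  have hAeq : A = insert o (Finset.univ.image f) := by
    ext x
    rw [hA']
    simp [eq_comm]
  have hsum : ∀ g : M → ℝ, ∑ a : A, g a.1 = g o + ∑ i, g (f i) := by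
    intro g
    rw [Finset.sum_coe_sort A g, hAeq, Finset.sum_insert (by simpa using hne),
      Finset.sum_image (fun i _ j _ h => hinj h)]
  let w : M → ℝ := fun x => if x = o then 1 - n * q / (1 + q) else 1 / (1 + q)
  have hwo : w o = 1 - n * q / (1 + q) := by simp [w]
  have hwf : ∀ i, w (f i) = 1 / (1 + q) := fun i => by simp [w, hne i]
  have h1 : ∀ a : A, ∑ b : A, Real.exp (-dist a.1 b.1) * w b.1 = 1 := by
    rintro ⟨a, ha⟩
    rw [hsum fun b => Real.exp (-dist a b) * w b]
    rcases (hA' a).1 ha with rfl | ⟨i, rfl⟩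
    · simp only [dist_self, neg_zero, Real.exp_zero, hwo, hwf, ho, ← hq, Finset.sum_const,
        Finset.card_univ, Fintype.card_fin, nsmul_eq_mul]
      field_simp
      ring
    · have h2 : ∑ j, Real.exp (-dist (f i) (f j)) * w (f j) =
          1 / (1 + q) + (n - 1) * (q ^ 2 * (1 / (1 + q))) := by
        rw [← Finset.add_sum_erase _ _ (Finset.mem_univ i)]
        congr 1
        · rw [dist_self, neg_zero, Real.exp_zero, one_mul, hwf]
        · have h3 : ∀ j ∈ Finset.univ.erase i, Real.exp (-dist (f i) (f j)) * w (f j) =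
              q ^ 2 * (1 / (1 + q)) := by
            intro j hj
            rw [hf i j (Finset.ne_of_mem_erase hj).symm, hwf, hq, ← Real.exp_nat_mul]
            congr 2
            push_cast
            ring
          rw [Finset.sum_congr rfl h3, Finset.sum_const, Finset.card_erase_of_mem (Finset.mem_univ i),
            Finset.card_univ, Fintype.card_fin, nsmul_eq_mul, Nat.cast_sub (by
              have := i.pos
              omega)]
          push_cast
          ring
      rw [h2, dist_comm, ho, ← hq, hwo]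
      field_simp
      ring
  rw [mag_eq hA h1, hsum, hwo]
  simp only [hwf, Finset.sum_const, Finset.card_univ, Fintype.card_fin, nsmul_eq_mul]
  field_simp
  ring

end mag

/-! ### The space `L₁` -/

section L1

/-- Lebesgue measure on `[0,1]` -/
noncomputable abbrev mu : Measure ℝ := volume.restrict (Icc (0 : ℝ) 1)

theorem mu_univ : mu.real univ = 1 := by
  simp [measureReal_def]

/-- the class of the indicator function of a measurable set -/
noncomputable def ind (S : Set ℝ) (hS : MeasurableSet S) : L1 :=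
  indicatorConstLp 1 hS (measure_ne_top _ _) (1 : ℝ)

theorem dist_ind {S S' : Set ℝ} (hS : MeasurableSet S) (hS' : MeasurableSet S') :
    dist (ind S hS) (ind S' hS') = mu.real (symmDiff S S') := by
  rw [ind, ind, dist_indicatorConstLp_eq_norm, norm_indicatorConstLp one_ne_zero ENNReal.one_ne_top]
  simp [measureReal_def]

theorem sets_of_ind {T : Set L1} (hT : ∀ f ∈ T, ∃ (S : Set ℝ) (hS : MeasurableSet S), f = ind S hS)
    (A : Finset T) : (zMat A).PosDef ∧ mag A ≤ Real.exp (1 / 2) := by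
  choose S hS hf using fun a : A => hT a.1.1 a.1.2
  have hd : ∀ a b : A, dist a.1 b.1 = mu.real (symmDiff (S a) (S b)) := by
    intro a b
    rw [← dist_ind (hS a) (hS b), ← hf a, ← hf b]
    rfl
  have hpos : (zMat A).PosDef := by
    refine posDef_of fun v hv => ?_
    have h := sets_pos mu S hS (fun a b hab => by
      rw [← hd]
      exact (dist_pos.2 fun h => hab (Subtype.ext h)).ne') hv
    simpa only [hd] using h
  refine ⟨hpos, ?_⟩
  have h := mag_le hpos (c := Real.exp (-(1 / 2))) (Real.exp_pos _) (fun v => by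
    have h := sets_le mu S hS v
    rw [mu_univ] at h
    simpa only [hd] using h)
  rwa [one_div, ← Real.exp_neg, neg_neg] at h

/-- the intervals -/
def J (p : Σ N : ℕ, Fin (N + 1)) : Set ℝ :=
  Ico ((p.2 : ℝ) / (p.1 + 1)) (((p.2 : ℝ) + 1) / (p.1 + 1))

theorem measurableSet_J (p : Σ N : ℕ, Fin (N + 1)) : MeasurableSet (J p) := measurableSet_Ico

theorem mu_J (p : Σ N : ℕ, Fin (N + 1)) : mu.real (J p) = 1 / (p.1 + 1) := by
  obtain ⟨N, i⟩ := p
  have hN : (0 : ℝ) < N + 1 := by positivity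
  have h1 : J ⟨N, i⟩ ⊆ Icc 0 1 := by
    intro x hx
    have hx1 : (i : ℝ) / (N + 1) ≤ x := hx.1
    have hx2 : x < ((i : ℝ) + 1) / (N + 1) := hx.2
    refine ⟨le_trans (by positivity) hx1, hx2.le.trans ?_⟩
    rw [div_le_one hN]
    have : (i : ℕ) + 1 ≤ N + 1 := i.2
    exact_mod_cast this
  rw [measureReal_def, Measure.restrict_apply (measurableSet_J _), inter_eq_left.2 h1, J,
    Real.volume_Ico]
  simp only
  rw [← sub_div, add_sub_cancel_left, ENNReal.toReal_ofReal (by positivity)]

theorem disjoint_J {N : ℕ} {i j : Fin (N + 1)} (hij : i ≠ j) : Disjoint (J ⟨N, i⟩) (J ⟨N, j⟩) := by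
  have hN : (0 : ℝ) < N + 1 := by positivity
  have key : ∀ i j : Fin (N + 1), i < j → Disjoint (J ⟨N, i⟩) (J ⟨N, j⟩) := by
    intro i j hij
    rw [Set.disjoint_left]
    intro x hx hx'
    have h1 : x < ((i : ℝ) + 1) / (N + 1) := hx.2
    have h2 : (j : ℝ) / (N + 1) ≤ x := hx'.1
    have h3 : (i : ℝ) + 1 ≤ j := by exact_mod_cast hij
    have h4 : ((i : ℝ) + 1) / (N + 1) ≤ (j : ℝ) / (N + 1) := by gcongr
    linarith
  rcases lt_or_gt_of_ne hij with h | h
  · exact key i j h
  · exact (key j i h).symm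

/-- the functions -/
noncomputable def F (p : Σ N : ℕ, Fin (N + 1)) : L1 := ind (J p) (measurableSet_J p)

/-- the origin -/
noncomputable def O : L1 := ind ∅ MeasurableSet.empty

theorem dist_O (p : Σ N : ℕ, Fin (N + 1)) : dist O (F p) = 1 / (p.1 + 1) := by
  rw [O, F, dist_ind, ← mu_J p]
  congr 1
  simp [symmDiff_def]

theorem dist_F {N : ℕ} {i j : Fin (N + 1)} (hij : i ≠ j) :
    dist (F ⟨N, i⟩) (F ⟨N, j⟩) = 2 * (1 / ((N : ℝ) + 1)) := by
  rw [F, F, dist_ind, (disjoint_J hij).symmDiff_eq_sup]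
  change mu.real (J ⟨N, i⟩ ∪ J ⟨N, j⟩) = _
  rw [measureReal_union (disjoint_J hij) (measurableSet_J _), mu_J, mu_J]
  ring

/-- the subset of `L₁` -/
noncomputable def T : Set L1 := insert O (range F)

theorem T_ind : ∀ f ∈ T, ∃ (S : Set ℝ) (hS : MeasurableSet S), f = ind S hS := by
  rintro f (rfl | ⟨p, rfl⟩)
  · exact ⟨_, _, rfl⟩
  · exact ⟨_, _, rfl⟩

theorem isCompact_T : IsCompact T := by
  refine Filter.Tendsto.isCompact_insert_range_of_cofinite ?_
  rw [Metric.tendsto_nhds]
  intro ε hε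
  obtain ⟨n, hn⟩ := exists_nat_one_div_lt hε
  rw [Filter.eventually_cofinite]
  refine (Finset.finite_toSet (Finset.sigma (Finset.range n) fun N => (Finset.univ : Finset (Fin (N + 1))))).subset ?_
  intro p hp
  simp only [Finset.coe_sigma, mem_sigma_iff, Finset.coe_range, mem_Iio, Finset.coe_univ, mem_univ, and_true]
  by_contra hlt
  push Not at hlt
  apply hp
  rw [dist_comm, dist_O]
  refine lt_of_le_of_lt ?_ hn
  have : (n : ℝ) ≤ p.1 := by exact_mod_cast hlt
  exact one_div_le_one_div_of_le (by positivity) (by linarith)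

/-- the origin as a point of `T` -/
noncomputable def o : T := ⟨O, mem_insert _ _⟩

/-- the functions as points of `T` -/
noncomputable def f (N : ℕ) (i : Fin (N + 1)) : T := ⟨F ⟨N, i⟩, mem_insert_of_mem _ ⟨_, rfl⟩⟩

open Classical in
/-- the stars -/
noncomputable def star (N : ℕ) : Finset T := insert o (Finset.univ.image (f N))

theorem mem_star (N : ℕ) (x : T) : x ∈ star N ↔ x = o ∨ ∃ i, x = f N i := by
  simp [star, eq_comm]

theorem mag_starN (N : ℕ) : 5 / 4 ≤ mag (star N) := by
  have hN : (0 : ℝ) < (N : ℝ) + 1 := by positivity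
  set δ : ℝ := 1 / ((N : ℝ) + 1) with hδ
  have hδ0 : 0 < δ := by positivity
  have hδ1 : δ ≤ 1 := by
    rw [hδ, div_le_one hN]
    linarith [(Nat.cast_nonneg N : (0 : ℝ) ≤ N)]
  have hd1 : ∀ i, dist o (f N i) = δ := fun i => dist_O ⟨N, i⟩
  have hd2 : ∀ i j, i ≠ j → dist (f N i) (f N j) = 2 * δ := fun i j hij => dist_F hij
  rw [mag_star (sets_of_ind T_ind (star N)).1 (mem_star N) hd1 hd2 hδ0]
  have h1 : Real.exp (-δ) ≤ 1 - δ / 2 := by
    have h2 : 1 + δ ≤ Real.exp δ := by linarith [Real.add_one_le_exp δ]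
    rw [Real.exp_neg, inv_le_comm₀ (Real.exp_pos _) (by linarith)]
    refine le_trans ?_ h2
    rw [inv_le_iff_one_le_mul₀ (by linarith)]
    nlinarith
  have h0 := Real.exp_pos (-δ)
  have h3 : δ / 4 ≤ (1 - Real.exp (-δ)) / (1 + Real.exp (-δ)) := by
    rw [le_div_iff₀ (by linarith)]
    nlinarith
  have h4 : (1 : ℝ) / 4 ≤ ((N + 1 : ℕ) : ℝ) * ((1 - Real.exp (-δ)) / (1 + Real.exp (-δ))) := by
    calc (1 : ℝ) / 4 = ((N + 1 : ℕ) : ℝ) * (δ / 4) := by
          rw [hδ]; push_cast; field_simp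
      _ ≤ _ := by gcongr
  linarith

theorem mag_o : mag ({o} : Finset T) = 1 := by
  have := mag_star (n := 0) (δ := 1) (sets_of_ind T_ind {o}).1 (o := o) (f := fun i => Fin.elim0 i)
    (by simp) (fun i => Fin.elim0 i) (fun i => Fin.elim0 i) one_pos
  simpa using this

theorem hausdorff_star (N : ℕ) : Metric.hausdorffDist ({o} : Set T) (star N : Set T) ≤ 1 / (N + 1) := by
  refine Metric.hausdorffDist_le_of_mem_dist (by positivity) ?_ ?_
  · rintro x rfl
    exact ⟨o, by simp [star], by rw [dist_self]; positivity⟩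
  · intro x hx
    refine ⟨o, rfl, ?_⟩
    rcases (mem_star N x).1 hx with rfl | ⟨i, rfl⟩
    · rw [dist_self]; positivity
    · rw [dist_comm]
      exact (dist_O ⟨N, i⟩).le

theorem magC_le (K : Set T) : magC K ≤ ENNReal.ofReal (Real.exp (1 / 2)) :=
  iSup_le fun A => iSup_le fun _ => iSup_le fun _ => ENNReal.ofReal_le_ofReal (sets_of_ind T_ind A).2

/-- **Result.** There is a compact subset `T` of `L₁([0,1], ℝ)` and a point `o` of it such that `T` is
a tractable metric space and the magnitude functions on the nonempty finite subsets and on the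
nonempty compact subsets of `T`, with the Hausdorff metric, are both discontinuous at `{o}`. -/
theorem result : ∃ T : Set L1, IsCompact T ∧ Tractable T ∧
    ∃ o : T, ¬ FinContinuousAt ({o} : Finset T) ∧ ¬ CmpContinuousAt ({o} : Set T) := by
  haveI : CompactSpace T := isCompact_iff_compactSpace.1 isCompact_T
  refine ⟨T, isCompact_T, ⟨fun A _ => (sets_of_ind T_ind A).1, fun S hS _ => hS.isCompact,
    fun x r => (magC_le _).trans_lt ENNReal.ofReal_lt_top⟩, o, ?_, ?_⟩
  · intro h
    obtain ⟨δ, hδ, h⟩ := h (1 / 8) (by norm_num)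
    obtain ⟨N, hN⟩ := exists_nat_one_div_lt hδ
    have h1 := h (star N) ⟨o, by simp [star]⟩ (by
      rw [Finset.coe_singleton]
      exact (hausdorff_star N).trans_lt hN)
    rw [mag_o] at h1
    have h2 := mag_starN N
    have h3 := (le_abs_self _).trans_lt h1
    linarith
  · intro h
    obtain ⟨δ, hδ, h⟩ := h (1 / 8) (by norm_num)
    obtain ⟨N, hN⟩ := exists_nat_one_div_lt hδ
    have h1 := h (star N : Set T) ⟨o, by simp [star]⟩ (star N).finite_toSet.isCompact
      ((hausdorff_star N).trans_lt hN)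
    have h2 : magC ({o} : Set T) ≤ 1 := by
      refine iSup_le fun A => iSup_le fun hA => iSup_le fun hAo => ?_
      have : A = {o} := by
        ext x
        constructor
        · intro hx
          simpa using hAo hx
        · intro hx
          obtain ⟨y, hy⟩ := hA
          have hyo : y = o := hAo hy
          rw [Finset.mem_singleton] at hx
          rw [hx, ← hyo]
          exact hy
      rw [this, mag_o, ENNReal.ofReal_one]
    have h3 : (magC ({o} : Set T)).toReal ≤ 1 := by
      have := ENNReal.toReal_mono ENNReal.one_ne_top h2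
      simpa using this
    have h4 : ENNReal.ofReal (5 / 4) ≤ magC (star N : Set T) := by
      refine le_trans (ENNReal.ofReal_le_ofReal (mag_starN N)) ?_
      exact le_iSup_of_le (star N) (le_iSup_of_le ⟨o, by simp [star]⟩ (le_iSup_of_le subset_rfl le_rfl))
    have h5 : 5 / 4 ≤ (magC (star N : Set T)).toReal := by
      have := ENNReal.toReal_mono ((magC_le _).trans_lt ENNReal.ofReal_lt_top).ne h4
      rwa [ENNReal.toReal_ofReal (by norm_num)] at this
    have h6 := (le_abs_self _).trans_lt h1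
    linarith

end L1

end Pool.Agent.Results.MP_17ecd9_gt.Discontinuity
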